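import Pool.Agent.H731R2.Riesz
import Pool.Agent.Helper5.Ci.Phillips

/-!
# The algebra of all subsets of `ℕ` has the Grothendieck property

This is Grothendieck's theorem for `ℓ_∞`. It is well known; it is proved here as a tool.
-/

set_option autoImplicit false

open MeasureTheory Set Filter Topology
open scoped ENNReal symmDiff RealInnerProductSpace

namespace Pool.Agent.R592.Gro

/-- The Stone space of the Boolean algebra `A`: all Boolean homomorphisms `A → {0, 1}`, as a
subspace of the product space `{0, 1}^A`. -/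
def stone (A : Type) [BooleanAlgebra A] : Set (A → Bool) :=
  {u | (∀ a b, u (a ⊓ b) = (u a && u b)) ∧ ∀ a, u aᶜ = !u a}

theorem isClosed_stone (A : Type) [BooleanAlgebra A] : IsClosed (stone A) := by
  have h : stone A = (⋂ (a : A) (b : A), {u : A → Bool | u (a ⊓ b) = (u a && u b)}) ∩
      ⋂ (a : A), {u : A → Bool | u aᶜ = !u a} := by
    ext u
    simp only [stone, mem_ofPred_eq, mem_inter_iff, mem_iInter]
  rw [h]
  refine IsClosed.inter ?_ ?_
  · refine isClosed_iInter fun a => isClosed_iInter fun b => isClosed_eq (continuous_apply _) ?_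
    have h1 : Continuous fun p : Bool × Bool => (p.1 && p.2) := continuous_of_discreteTopology
    have h2 : Continuous fun u : A → Bool => (u a, u b) :=
      (continuous_apply a).prodMk (continuous_apply b)
    exact h1.comp h2
  · refine isClosed_iInter fun a => isClosed_eq (continuous_apply _) ?_
    have h1 : Continuous fun b : Bool => !b := continuous_of_discreteTopology
    exact h1.comp (continuous_apply a)

instance (A : Type) [BooleanAlgebra A] : CompactSpace (stone A) :=
  isCompact_iff_compactSpace.1 (isClosed_stone A).isCompact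

/-- A Banach space is a Grothendieck space if every sequence in the dual which converges weak*
also converges weakly. -/
def IsGrothendieckSpace (X : Type*) [NormedAddCommGroup X] [NormedSpace ℝ X] : Prop :=
  ∀ (f : ℕ → StrongDual ℝ X) (g : StrongDual ℝ X),
    (∀ x : X, Tendsto (fun n => f n x) atTop (𝓝 (g x))) →
    ∀ Φ : StrongDual ℝ (StrongDual ℝ X), Tendsto (fun n => Φ (f n)) atTop (𝓝 (Φ g))

/-- The Boolean algebra `A` has the Grothendieck property: `C(St(A))` is a Grothendieck space. -/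
def GrothendieckProperty (A : Type) [BooleanAlgebra A] : Prop := IsGrothendieckSpace C(stone A, ℝ)

/-! ### The Stone space of the algebra of all subsets of `ℕ` -/

abbrev K : Type := stone (Set ℕ)

/-- the basic clopen sets -/
def cl (S : Set ℕ) : Set K := {u | u.1 S = true}

lemma mem_cl {S : Set ℕ} {u : K} : u ∈ cl S ↔ u.1 S = true := Iff.rfl

lemma cl_inter (S T : Set ℕ) : cl (S ∩ T) = cl S ∩ cl T := by
  ext u
  have h : u.1 (S ∩ T) = (u.1 S && u.1 T) := u.2.1 S T
  simp only [mem_cl, mem_inter_iff, h, Bool.and_eq_true]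

lemma cl_compl (S : Set ℕ) : cl Sᶜ = (cl S)ᶜ := by
  ext u
  have h : u.1 Sᶜ = !u.1 S := u.2.2 S
  simp only [mem_cl, mem_compl_iff, h]
  simp

lemma cl_union (S T : Set ℕ) : cl (S ∪ T) = cl S ∪ cl T := by
  have : S ∪ T = (Sᶜ ∩ Tᶜ)ᶜ := by simp [compl_inter]
  rw [this, cl_compl, cl_inter, cl_compl, cl_compl, compl_inter, compl_compl, compl_compl]

lemma cl_univ : cl univ = univ := by
  have h : (univ : Set ℕ) = ∅ ∪ ∅ᶜ := by simp
  rw [h, cl_union, cl_compl]
  simp

lemma cl_empty : cl ∅ = ∅ := by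
  have := cl_compl univ
  rw [compl_univ, cl_univ, compl_univ] at this
  exact this

lemma cl_diff (S T : Set ℕ) : cl (S \ T) = cl S \ cl T := by
  rw [sdiff_eq, cl_inter, cl_compl, sdiff_eq]

lemma cl_mono {S T : Set ℕ} (h : S ⊆ T) : cl S ⊆ cl T := by
  have h1 : S ∩ T = S := inter_eq_left.2 h
  rw [← h1, cl_inter]
  exact inter_subset_right

lemma isClopen_cl (S : Set ℕ) : IsClopen (cl S) := by
  have h : cl S = (fun u : K => u.1 S) ⁻¹' {true} := rfl
  rw [h]
  exact (isClopen_discrete ({true} : Set Bool)).preimage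
    ((continuous_apply S).comp continuous_subtype_val)

lemma measurable_coord (S : Set ℕ) : Measurable fun u : K => u.1 S :=
  (measurable_pi_apply S).comp measurable_subtype_coe

lemma measurableSet_cl (S : Set ℕ) : MeasurableSet (cl S) := by
  have h : cl S = (fun u : K => u.1 S) ⁻¹' {true} := rfl
  rw [h]
  exact measurable_coord S (MeasurableSet.singleton _)

/-- the characteristic function of a basic clopen set -/
noncomputable def ind (S : Set ℕ) : C(K, ℝ) :=
  ⟨fun u => if u.1 S = true then 1 else 0, by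
    have h1 : Continuous (fun b : Bool => (if b = true then (1 : ℝ) else 0)) :=
      continuous_of_discreteTopology
    exact h1.comp ((continuous_apply S).comp continuous_subtype_val)⟩

lemma ind_apply (S : Set ℕ) (u : K) : ind S u = (cl S).indicator (fun _ => (1 : ℝ)) u := by
  simp only [ind, ContinuousMap.coe_mk, indicator, mem_cl]

lemma ind_union {S T : Set ℕ} (h : Disjoint S T) : ind (S ∪ T) = ind S + ind T := by
  ext u
  rw [ContinuousMap.add_apply, ind_apply, ind_apply, ind_apply, cl_union]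
  rw [indicator_union_of_disjoint]
  rw [Set.disjoint_iff_inter_eq_empty, ← cl_inter, Set.disjoint_iff_inter_eq_empty.1 h, cl_empty]

lemma norm_ind (S : Set ℕ) : ‖ind S‖ ≤ 1 := by
  rw [ContinuousMap.norm_le _ zero_le_one]
  intro u
  simp only [ind, ContinuousMap.coe_mk]
  split_ifs <;> simp

lemma isSetAlgebra_cl : IsSetAlgebra (range cl) where
  empty_mem := ⟨∅, cl_empty⟩
  compl_mem := by
    rintro _ ⟨S, rfl⟩
    exact ⟨Sᶜ, cl_compl S⟩
  union_mem := by
    rintro _ _ ⟨S, rfl⟩ ⟨T, rfl⟩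
    exact ⟨S ∪ T, cl_union S T⟩

lemma generate_cl :
    (inferInstance : MeasurableSpace K) = MeasurableSpace.generateFrom (range cl) := by
  apply le_antisymm
  · have h : Measurable[MeasurableSpace.generateFrom (range cl), inferInstance] (id : K → K) := by
      refine Measurable.subtype_mk (f := fun u : K => u.1) ?_
      refine @measurable_pi_lambda _ _ _ (MeasurableSpace.generateFrom (range cl)) _ _ ?_
      intro S
      refine @measurable_to_bool _ (MeasurableSpace.generateFrom (range cl)) _ ?_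
      exact MeasurableSpace.measurableSet_generateFrom ⟨S, rfl⟩
    intro s hs
    exact h hs
  · refine MeasurableSpace.generateFrom_le ?_
    rintro _ ⟨S, rfl⟩
    exact measurableSet_cl S

lemma measurable_of_gen {t : Set K} (ht : MeasurableSet[MeasurableSpace.generateFrom (range cl)] t) :
    MeasurableSet t := by
  have h := generate_cl
  rw [← h] at ht
  exact ht

lemma dense_cl (μ : Measure K) [IsFiniteMeasure μ] : μ.MeasureDense (range cl) :=
  Measure.MeasureDense.of_generateFrom_isSetAlgebra_finite μ isSetAlgebra_cl generate_cl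

/-- continuous functions are measurable -/
theorem measurable_cont (f : C(K, ℝ)) : Measurable f := by
  classical
  let A : Subalgebra ℝ C(K, ℝ) :=
    { carrier := {g | Measurable (g : K → ℝ)}
      mul_mem' := fun {a b} ha hb => by
        have : Measurable (fun z => a z * b z) := Measurable.mul ha hb
        exact this
      add_mem' := fun {a b} ha hb => by
        have : Measurable (fun z => a z + b z) := Measurable.add ha hb
        exact this
      algebraMap_mem' := fun r => by
        have : Measurable (fun _ : K => r) := measurable_const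
        exact this }
  have hsep : A.SeparatesPoints := by
    intro x y hxy
    have hxy' : x.1 ≠ y.1 := fun h => hxy (Subtype.ext h)
    obtain ⟨g, hg⟩ := Function.ne_iff.mp hxy'
    have hm : Measurable (fun z : K => (if z.1 g = true then (1 : ℝ) else 0)) := by
      have h1 : Measurable (fun b : Bool => (if b = true then (1 : ℝ) else 0)) :=
        measurable_of_finite _
      exact h1.comp (measurable_coord g)
    refine ⟨fun z => (if z.1 g = true then (1 : ℝ) else 0), ⟨ind g, hm, rfl⟩, ?_⟩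
    show (if x.1 g = true then (1 : ℝ) else 0) ≠ (if y.1 g = true then (1 : ℝ) else 0)
    revert hg
    generalize x.1 g = a
    generalize y.1 g = b
    cases a <;> cases b <;> simp
  have htop := ContinuousMap.subalgebra_topologicalClosure_eq_top_of_separatesPoints A hsep
  have hf : f ∈ A.topologicalClosure := by rw [htop]; trivial
  have hf' : f ∈ closure (A : Set C(K, ℝ)) := hf
  rw [mem_closure_iff_seq_limit] at hf'
  obtain ⟨u, hu, hlim⟩ := hf'
  refine measurable_of_tendsto_metrizable (f := fun n z => u n z) (fun n => hu n) ?_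
  rw [tendsto_pi_nhds]
  intro z
  exact ((ContinuousEvalConst.continuous_eval_const z).tendsto f).comp hlim

/-- the real part of a function -/
noncomputable def reC (h : C(K, ℂ)) : C(K, ℝ) := ⟨fun x => (h x).re, by fun_prop⟩

/-- the imaginary part of a function -/
noncomputable def imC (h : C(K, ℂ)) : C(K, ℝ) := ⟨fun x => (h x).im, by fun_prop⟩

lemma norm_reC (h : C(K, ℂ)) : ‖reC h‖ ≤ ‖h‖ := by
  rw [ContinuousMap.norm_le _ (norm_nonneg _)]
  intro x
  exact (Complex.abs_re_le_norm _).trans (h.norm_coe_le_norm x)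

lemma norm_imC (h : C(K, ℂ)) : ‖imC h‖ ≤ ‖h‖ := by
  rw [ContinuousMap.norm_le _ (norm_nonneg _)]
  intro x
  exact (Complex.abs_im_le_norm _).trans (h.norm_coe_le_norm x)

/-- the complexification of a functional -/
noncomputable def cpx (f : StrongDual ℝ C(K, ℝ)) : StrongDual ℂ C(K, ℂ) :=
  LinearMap.mkContinuous
    { toFun := fun h => (f (reC h) : ℂ) + (f (imC h) : ℂ) * Complex.I
      map_add' := by
        intro g h
        have h1 : reC (g + h) = reC g + reC h := by
          ext x
          simp [reC]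
        have h2 : imC (g + h) = imC g + imC h := by
          ext x
          simp [imC]
        rw [h1, h2, map_add, map_add]
        push_cast
        ring
      map_smul' := by
        intro c h
        have h1 : reC (c • h) = c.re • reC h - c.im • imC h := by
          ext x
          simp [reC, imC]
        have h2 : imC (c • h) = c.re • imC h + c.im • reC h := by
          ext x
          simp [reC, imC]
        rw [h1, h2, map_sub, map_add, map_smul, map_smul, map_smul, map_smul]
        simp only [RingHom.id_apply, smul_eq_mul]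
        push_cast
        apply Complex.ext
        · simp
        · simp } (2 * ‖f‖) (by
    intro h
    change ‖(f (reC h) : ℂ) + (f (imC h) : ℂ) * Complex.I‖ ≤ _
    refine (norm_add_le _ _).trans ?_
    have h1 : ‖(f (reC h) : ℂ)‖ ≤ ‖f‖ * ‖h‖ := by
      rw [Complex.norm_real]
      exact (f.le_opNorm _).trans (by gcongr; exact norm_reC h)
    have h2 : ‖(f (imC h) : ℂ) * Complex.I‖ ≤ ‖f‖ * ‖h‖ := by
      rw [norm_mul, Complex.norm_I, mul_one, Complex.norm_real]
      exact (f.le_opNorm _).trans (by gcongr; exact norm_imC h)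
    linarith)

lemma cpx_apply (f : StrongDual ℝ C(K, ℝ)) (h : C(K, ℂ)) :
    cpx f h = (f (reC h) : ℂ) + (f (imC h) : ℂ) * Complex.I := rfl

lemma dominated_borel (f : StrongDual ℝ C(K, ℝ)) :
    ∃ ν : @Measure K (borel K), @IsFiniteMeasure K (borel K) ν ∧
      ∀ h : C(K, ℝ), |f h| ≤ @integral K ℝ _ _ (borel K) ν (fun x => |h x|) := by
  obtain ⟨ν, h1, -, h2⟩ := @Pool.Agent.H731R2.exists_dominating_measure K _ _ _ (borel K)
    (@BorelSpace.mk _ _ (borel K) rfl) (cpx f)
  refine ⟨ν, h1, fun h => ?_⟩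
  have h3 := h2 ⟨fun x => ((h x : ℝ) : ℂ), by fun_prop⟩
  have h4 : cpx f ⟨fun x => ((h x : ℝ) : ℂ), by fun_prop⟩ = (f h : ℂ) := by
    rw [cpx_apply]
    have e1 : reC ⟨fun x => ((h x : ℝ) : ℂ), by fun_prop⟩ = h := by
      ext x
      simp [reC]
    have e2 : imC ⟨fun x => ((h x : ℝ) : ℂ), by fun_prop⟩ = 0 := by
      ext x
      simp [imC]
    rw [e1, e2, map_zero]
    simp
  rw [h4, Complex.norm_real, Real.norm_eq_abs] at h3
  refine h3.trans_eq ?_
  congr 1
  funext x
  change ‖((h x : ℝ) : ℂ)‖ = |h x|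
  rw [Complex.norm_real, Real.norm_eq_abs]

lemma le_borel : (inferInstance : MeasurableSpace K) ≤ borel K := by
  rw [generate_cl]
  refine MeasurableSpace.generateFrom_le ?_
  rintro _ ⟨S, rfl⟩
  exact MeasurableSpace.measurableSet_generateFrom (isClopen_cl S).isOpen

lemma dominated (f : StrongDual ℝ C(K, ℝ)) :
    ∃ ν : Measure K, IsFiniteMeasure ν ∧ ∀ h : C(K, ℝ), |f h| ≤ ∫ x, |h x| ∂ν := by
  obtain ⟨ν, h1, h2⟩ := dominated_borel f
  refine ⟨ν.trim le_borel, @isFiniteMeasure_trim _ _ _ _ le_borel h1, fun h => ?_⟩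
  refine (h2 h).trans_eq ?_
  exact integral_trim le_borel (measurable_cont h).abs.stronglyMeasurable

/-! ### A common measure -/

lemma exists_common (F : ℕ → StrongDual ℝ C(K, ℝ)) :
    ∃ μ : Measure K, IsFiniteMeasure μ ∧
      ∀ n, ∃ C : ℝ, 0 ≤ C ∧ ∀ h : C(K, ℝ), |F n h| ≤ C * ∫ x, |h x| ∂μ := by
  choose ν hν1 hν2 using fun n => dominated (F n)
  let c : ℕ → ℝ≥0∞ := fun n => (2⁻¹ : ℝ≥0∞) ^ (n + 1) * (1 + ν n univ)⁻¹
  have hc0 : ∀ n, c n ≠ 0 := by
    intro n
    have := measure_ne_top (ν n) univ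
    simp only [c, ne_eq, mul_eq_zero, pow_eq_zero_iff', ENNReal.inv_eq_zero, not_or]
    constructor
    · simp
    · simp
  have hct : ∀ n, c n ≠ ⊤ := by
    intro n
    apply ENNReal.mul_ne_top
    · exact ENNReal.pow_ne_top (by simp)
    · simp
  have hcle : ∀ n, c n * ν n univ ≤ (2⁻¹ : ℝ≥0∞) ^ (n + 1) := by
    intro n
    have h1 : (1 + ν n univ)⁻¹ * ν n univ ≤ 1 := by
      have h2 : (1 + ν n univ)⁻¹ * (1 + ν n univ) = 1 :=
        ENNReal.inv_mul_cancel (by simp) (by simp)
      calc (1 + ν n univ)⁻¹ * ν n univ ≤ (1 + ν n univ)⁻¹ * (1 + ν n univ) := by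
            gcongr
            exact le_add_self
        _ = 1 := h2
    simp only [c]
    rw [mul_assoc]
    calc (2⁻¹ : ℝ≥0∞) ^ (n + 1) * ((1 + ν n univ)⁻¹ * ν n univ) ≤ (2⁻¹ : ℝ≥0∞) ^ (n + 1) * 1 := by
          gcongr
      _ = _ := mul_one _
  let μ : Measure K := Measure.sum fun n => c n • ν n
  have hμ : IsFiniteMeasure μ := by
    constructor
    simp only [μ]
    rw [Measure.sum_apply _ MeasurableSet.univ]
    refine lt_of_le_of_lt (ENNReal.tsum_le_tsum (g := fun n => (2⁻¹ : ℝ≥0∞) ^ (n + 1)) ?_) ?_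
    · intro n
      simpa using hcle n
    · rw [ENNReal.tsum_geometric_add_one]
      simp only [ENNReal.one_sub_inv_two, inv_inv]
      exact ENNReal.mul_lt_top (by simp) (by simp)
  refine ⟨μ, hμ, fun n => ⟨((c n).toReal)⁻¹, by positivity, fun h => ?_⟩⟩
  have h1 : c n • ν n ≤ μ := Measure.le_sum (fun n => c n • ν n) n
  have hint : Integrable (fun x => |h x|) μ := by
    refine Integrable.of_bound (measurable_cont h).abs.aestronglyMeasurable ‖h‖ ?_
    refine Eventually.of_forall fun x => ?_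
    rw [Real.norm_eq_abs, abs_abs]
    exact h.norm_coe_le_norm x
  have h2 : ∫ x, |h x| ∂(c n • ν n) ≤ ∫ x, |h x| ∂μ :=
    integral_mono_measure h1 (Eventually.of_forall fun x => abs_nonneg _) hint
  rw [integral_smul_measure] at h2
  have h3 : 0 < (c n).toReal := ENNReal.toReal_pos (hc0 n) (hct n)
  rw [inv_mul_eq_div, le_div_iff₀ h3]
  refine le_trans ?_ h2
  rw [smul_eq_mul, mul_comm]
  gcongr
  exact hν2 n h

section Lp

variable (μ : Measure K) [IsFiniteMeasure μ]

lemma memLp_cont (h : C(K, ℝ)) : MemLp h 2 μ :=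
  MemLp.of_bound (measurable_cont h).aestronglyMeasurable ‖h‖
    (Eventually.of_forall fun x => h.norm_coe_le_norm x)

/-- the embedding of the space of continuous functions -/
noncomputable def T : C(K, ℝ) →L[ℝ] Lp ℝ 2 μ :=
  LinearMap.mkContinuous
    { toFun := fun h => (memLp_cont μ h).toLp h
      map_add' := fun g h => by
        rw [← MemLp.toLp_add]
        rfl
      map_smul' := fun c h => by
        rw [RingHom.id_apply, ← MemLp.toLp_const_smul]
        rfl } ((measureUnivNNReal μ : ℝ) ^ (2 : ℝ≥0∞).toReal⁻¹) (by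
    intro h
    refine Lp.norm_le_of_ae_bound (norm_nonneg _) ?_
    filter_upwards [(memLp_cont μ h).coeFn_toLp] with x hx
    change ‖((memLp_cont μ h).toLp h : K → ℝ) x‖ ≤ _
    rw [hx]
    exact h.norm_coe_le_norm x)

lemma coeFn_T (h : C(K, ℝ)) : (T μ h : K → ℝ) =ᵐ[μ] h := (memLp_cont μ h).coeFn_toLp

lemma inner_T (w : Lp ℝ 2 μ) (h : C(K, ℝ)) : ⟪w, T μ h⟫ = ∫ x, h x * w x ∂μ := by
  rw [L2.inner_def]
  apply integral_congr_ae
  filter_upwards [coeFn_T μ h] with x hx
  rw [hx]
  simp

/-- Hahn-Banach through a linear map. -/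
theorem exists_functional {E X : Type*} [AddCommGroup E] [Module ℝ E] [NormedAddCommGroup X]
    [NormedSpace ℝ X] (T : E →ₗ[ℝ] X) (l : E →ₗ[ℝ] ℝ) (C : ℝ) (hC : 0 ≤ C)
    (h : ∀ e, ‖l e‖ ≤ C * ‖T e‖) :
    ∃ Ψ : StrongDual ℝ X, ‖Ψ‖ ≤ C ∧ ∀ e, Ψ (T e) = l e := by
  have hsurj : Function.Surjective T.rangeRestrict := T.surjective_rangeRestrict
  obtain ⟨s, hs⟩ := T.rangeRestrict.exists_rightInverse_of_surjective
    (LinearMap.range_eq_top.2 hsurj)
  have hs' : ∀ y : LinearMap.range T, T (s y) = y := by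
    intro y
    have := congrArg (fun g => ((g y : LinearMap.range T) : X)) hs
    simpa using this
  let l0 : LinearMap.range T →ₗ[ℝ] ℝ := l ∘ₗ s
  have hl0 : ∀ y : LinearMap.range T, ‖l0 y‖ ≤ C * ‖y‖ := by
    intro y
    have := h (s y)
    rw [hs'] at this
    exact this
  let f : StrongDual ℝ (LinearMap.range T) := l0.mkContinuous C hl0
  obtain ⟨Ψ, hΨ, hΨn⟩ := exists_extension_norm_eq (LinearMap.range T) f
  refine ⟨Ψ, ?_, ?_⟩
  · rw [hΨn]
    exact LinearMap.mkContinuous_norm_le _ hC _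
  · intro e
    have h1 := hΨ ⟨T e, LinearMap.mem_range_self T e⟩
    have h2 : f ⟨T e, LinearMap.mem_range_self T e⟩ = l e := by
      change l (s ⟨T e, LinearMap.mem_range_self T e⟩) = l e
      have h3 := h (s ⟨T e, LinearMap.mem_range_self T e⟩ - e)
      rw [map_sub, map_sub, hs'] at h3
      simp only [sub_self, norm_zero, mul_zero] at h3
      exact sub_eq_zero.1 (norm_le_zero_iff.1 h3)
    rw [← h2, ← h1]

lemma exists_density (f : StrongDual ℝ C(K, ℝ)) (C : ℝ) (hC : 0 ≤ C)
    (hf : ∀ h : C(K, ℝ), |f h| ≤ C * ∫ x, |h x| ∂μ) :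
    ∃ w : Lp ℝ 2 μ, ∀ h, f h = ⟪w, T μ h⟫ := by
  obtain ⟨Ψ, -, hΨ⟩ := exists_functional (T μ).toLinearMap f.toLinearMap (C * ‖T μ 1‖)
    (by positivity) (by
      intro h
      change |f h| ≤ C * ‖T μ 1‖ * ‖T μ h‖
      refine (hf h).trans ?_
      rw [mul_assoc]
      refine mul_le_mul_of_nonneg_left ?_ hC
      let ah : C(K, ℝ) := ⟨fun x => |h x|, by fun_prop⟩
      have h1 : ⟪T μ 1, T μ ah⟫ = ∫ x, |h x| ∂μ := by
        rw [inner_T]
        apply integral_congr_ae
        filter_upwards [coeFn_T μ 1] with x hx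
        rw [hx]
        simp [ah]
      rw [← h1]
      refine (real_inner_le_norm _ _).trans ?_
      refine mul_le_mul_of_nonneg_left ?_ (norm_nonneg _)
      refine Lp.norm_le_norm_of_ae_le ?_
      filter_upwards [coeFn_T μ ah, coeFn_T μ h] with x h2 h3
      rw [h2, h3]
      simp [ah])
  refine ⟨(InnerProductSpace.toDual ℝ (Lp ℝ 2 μ)).symm Ψ, fun h => ?_⟩
  rw [InnerProductSpace.toDual_symm_apply]
  exact (hΨ h).symm

end Lp

section Var

variable {μ : Measure K} [IsFiniteMeasure μ]

/-- the variation measure of the functional with density `w` -/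
noncomputable def vv (w : Lp ℝ 2 μ) : Measure K := μ.withDensity fun x => ‖w x‖ₑ

lemma integrable_w (w : Lp ℝ 2 μ) : Integrable w μ := by
  rw [← memLp_one_iff_integrable]
  exact (Lp.memLp w).mono_exponent one_le_two

instance (w : Lp ℝ 2 μ) : IsFiniteMeasure (vv w) := by
  refine isFiniteMeasure_withDensity ?_
  exact (integrable_w w).hasFiniteIntegral.ne

lemma vv_real (w : Lp ℝ 2 μ) {B : Set K} (hB : MeasurableSet B) :
    (vv w).real B = ∫ x in B, |w x| ∂μ := by
  rw [measureReal_def, vv, withDensity_apply _ hB]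
  have h := integral_norm_eq_lintegral_enorm (μ := μ.restrict B)
    (integrable_w w).aestronglyMeasurable.restrict
  rw [← h]
  rfl

lemma vv_diff_le (w : Lp ℝ 2 μ) {B C : Set K} (hB : MeasurableSet B) (hC : MeasurableSet C) :
    |∫ x in B, w x ∂μ - ∫ x in C, w x ∂μ| ≤ (vv w).real (B ∆ C) := by
  have hi := integrable_w w
  have h1 : ∫ x in B, w x ∂μ = ∫ x in B ∩ C, w x ∂μ + ∫ x in B \ C, w x ∂μ :=
    (integral_inter_add_sdiff hC hi.integrableOn).symm
  have h2 : ∫ x in C, w x ∂μ = ∫ x in C ∩ B, w x ∂μ + ∫ x in C \ B, w x ∂μ :=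
    (integral_inter_add_sdiff hB hi.integrableOn).symm
  have h3 : B ∆ C = (B \ C) ∪ (C \ B) := rfl
  have h4 : Disjoint (B \ C) (C \ B) := disjoint_sdiff_sdiff
  rw [vv_real w (hB.symmDiff hC), h3, setIntegral_union h4 (hC.diff hB) hi.abs.integrableOn
    hi.abs.integrableOn, h1, h2, inter_comm C B]
  have h5 : |∫ x in B \ C, w x ∂μ| ≤ ∫ x in B \ C, |w x| ∂μ := abs_integral_le_integral_abs
  have h6 : |∫ x in C \ B, w x ∂μ| ≤ ∫ x in C \ B, |w x| ∂μ := abs_integral_le_integral_abs
  rw [abs_le] at h5 h6 ⊢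
  constructor <;> linarith

lemma inner_ind (w : Lp ℝ 2 μ) (S : Set ℕ) : ⟪w, T μ (ind S)⟫ = ∫ x in cl S, w x ∂μ := by
  rw [inner_T, ← integral_indicator (measurableSet_cl S)]
  congr 1
  funext x
  rw [ind_apply]
  by_cases hx : x ∈ cl S <;> simp [hx]

/-- half of the variation is nearly attained -/
lemma exists_half (w : Lp ℝ 2 μ) (d : Set ℕ) {c : ℝ} (hc : c < (vv w).real (cl d)) :
    ∃ S ⊆ d, c / 2 < |⟪w, T μ (ind S)⟫| := by
  have hi := integrable_w w
  have hPm : MeasurableSet {x : K | 0 < w x} :=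
    measurableSet_lt measurable_const (Lp.stronglyMeasurable w).measurable
  set P : Set K := {x : K | 0 < w x} with hP
  have hd := measurableSet_cl d
  have h1 : (vv w).real (cl d) = ∫ x in cl d ∩ P, w x ∂μ - ∫ x in cl d \ P, w x ∂μ := by
    rw [vv_real w hd, ← integral_inter_add_sdiff hPm hi.abs.integrableOn, sub_eq_add_neg,
      ← integral_neg]
    congr 1
    · refine setIntegral_congr_fun (hd.inter hPm) fun x hx => ?_
      exact abs_of_pos hx.2
    · refine setIntegral_congr_fun (hd.diff hPm) fun x hx => ?_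
      exact abs_of_nonpos (not_lt.1 hx.2)
  have hden := dense_cl (vv w)
  -- approximation of a measurable subset of `cl d`
  have key : ∀ Q : Set K, MeasurableSet Q → Q ⊆ cl d → ∀ η : ℝ, 0 < η → ∃ S ⊆ d,
      |⟪w, T μ (ind S)⟫ - ∫ x in Q, w x ∂μ| < η := by
    intro Q hQ hQd η hη
    obtain ⟨_, ⟨S, rfl⟩, hS⟩ := hden.approx Q hQ (measure_ne_top _ _) η hη
    refine ⟨S ∩ d, inter_subset_right, ?_⟩
    rw [inner_ind]
    refine lt_of_le_of_lt (vv_diff_le w (measurableSet_cl _) hQ) ?_
    have h2 : cl (S ∩ d) ∆ Q ⊆ Q ∆ cl S := by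
      rw [cl_inter]
      intro x hx
      rcases hx with ⟨hx1, hx2⟩ | ⟨hx1, hx2⟩
      · exact Or.inr ⟨hx1.1, hx2⟩
      · exact Or.inl ⟨hx1, fun h => hx2 ⟨h, hQd hx1⟩⟩
    refine lt_of_le_of_lt (measureReal_mono h2) ?_
    rw [measureReal_def]
    exact (ENNReal.toReal_lt_of_lt_ofReal hS)
  by_cases hcase : c / 2 < ∫ x in cl d ∩ P, w x ∂μ
  · obtain ⟨S, hS, h2⟩ := key _ (hd.inter hPm) inter_subset_left
      (∫ x in cl d ∩ P, w x ∂μ - c / 2) (by linarith)
    refine ⟨S, hS, ?_⟩
    rw [abs_lt] at h2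
    refine lt_of_lt_of_le ?_ (le_abs_self _)
    linarith
  · have h3 : ∫ x in cl d \ P, w x ∂μ < - (c / 2) := by linarith
    obtain ⟨S, hS, h2⟩ := key _ (hd.diff hPm) sdiff_subset
      (- (c / 2) - ∫ x in cl d \ P, w x ∂μ) (by linarith)
    refine ⟨S, hS, ?_⟩
    rw [abs_lt] at h2
    refine lt_of_lt_of_le ?_ (neg_le_abs _)
    linarith

lemma phillips_real (m : ℕ → Set ℕ → ℝ) (M : ℝ)
    (hadd : ∀ k S T, Disjoint S T → m k (S ∪ T) = m k S + m k T)
    (hbd : ∀ k S, |m k S| ≤ M) (hlim : ∀ S, Tendsto (fun k => m k S) atTop (𝓝 0)) :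
    Tendsto (fun k => m k {k}) atTop (𝓝 0) := by
  have h := Pool.Agent.Helper5.CI.phillips (fun k S => (m k S : ℂ)) M
    (fun k S T h => by rw [hadd k S T h]; push_cast; rfl)
    (fun k S => by rw [Complex.norm_real]; exact hbd k S)
    (fun S => by
      have h1 := (Complex.continuous_ofReal.tendsto 0).comp (hlim S)
      rw [Complex.ofReal_zero] at h1
      exact h1)
  have h2 := (Complex.continuous_re.tendsto 0).comp h
  rw [Complex.zero_re] at h2
  refine h2.congr fun k => ?_
  simp

/-- uniform regularity -/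
lemma uniform_regular (w : ℕ → Lp ℝ 2 μ) (M : ℝ) (hM : ∀ n S, |⟪w n, T μ (ind S)⟫| ≤ M)
    (h0 : ∀ S, Tendsto (fun n => ⟪w n, T μ (ind S)⟫) atTop (𝓝 0)) (S : ℕ → Set ℕ)
    (hS : Monotone S) {ε : ℝ} (hε : 0 < ε) :
    ∃ N, ∀ n, (vv (w n)).real ((⋃ i, cl (S i)) \ cl (S N)) ≤ ε := by
  classical
  by_contra hcon
  push Not at hcon
  set U : Set K := ⋃ i, cl (S i) with hU
  have hSc : Monotone fun i => cl (S i) := fun i j hij => cl_mono (hS hij)
  have hUm : MeasurableSet U := MeasurableSet.iUnion fun i => measurableSet_cl _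
  have hlim1 : ∀ n, Tendsto (fun i => (vv (w n)).real (U \ cl (S i))) atTop (𝓝 0) := by
    intro n
    have h1 : Tendsto (fun i => vv (w n) (U \ cl (S i))) atTop
        (𝓝 (vv (w n) (⋂ i, U \ cl (S i)))) := by
      refine tendsto_measure_iInter_atTop (fun i => (hUm.diff (measurableSet_cl _)).nullMeasurableSet)
        (fun i j hij => sdiff_subset_sdiff_right (hSc hij)) ⟨0, measure_ne_top _ _⟩
    have h2 : (⋂ i, U \ cl (S i)) = ∅ := by
      rw [← sdiff_iUnion]
      simp [hU]
    rw [h2, measure_empty] at h1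
    have h3 := (ENNReal.tendsto_toReal ENNReal.zero_ne_top).comp h1
    rw [ENNReal.toReal_zero] at h3
    exact h3
  have hlim2 : ∀ n N, Tendsto (fun i => (vv (w n)).real (cl (S i) \ cl (S N))) atTop
      (𝓝 ((vv (w n)).real (U \ cl (S N)))) := by
    intro n N
    have h1 : Tendsto (fun i => vv (w n) (cl (S i) \ cl (S N))) atTop
        (𝓝 (vv (w n) (⋃ i, cl (S i) \ cl (S N)))) :=
      tendsto_measure_iUnion_atTop (fun i j hij => sdiff_subset_sdiff_left (hSc hij))
    rw [← iUnion_sdiff] at h1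
    exact (ENNReal.tendsto_toReal (measure_ne_top _ _)).comp h1
  -- one step
  have step : ∀ N k : ℕ, ∃ N' > N, ∃ n > k, ε < (vv (w n)).real (cl (S N') \ cl (S N)) := by
    intro N k
    have h1 : ∀ᶠ i in atTop, ∀ n ∈ Finset.range (k + 1), (vv (w n)).real (U \ cl (S i)) ≤ ε := by
      rw [Finset.eventually_all]
      intro n _
      exact (hlim1 n).eventually_le_const hε
    obtain ⟨i, hi, hiN⟩ := (h1.and (eventually_ge_atTop N)).exists
    obtain ⟨n, hn⟩ := hcon i
    have hnk : k < n := by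
      by_contra hle
      exact absurd (hi n (Finset.mem_range.2 (by omega))) (not_le.2 hn)
    have h2 : ε < (vv (w n)).real (U \ cl (S N)) :=
      lt_of_lt_of_le hn (measureReal_mono (sdiff_subset_sdiff_right (hSc hiN)))
    obtain ⟨N', h3, h4⟩ := (((hlim2 n N).eventually_const_lt h2).and
      (eventually_gt_atTop N)).exists
    exact ⟨N', h4, n, hnk, h3⟩
  choose N' hN' n' hn' hlt using step
  let q : ℕ → ℕ × ℕ := fun i => Nat.rec (0, 0) (fun _ p => (N' p.1 p.2, n' p.1 p.2)) i
  have hq : ∀ i, q (i + 1) = (N' (q i).1 (q i).2, n' (q i).1 (q i).2) := fun i => rfl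
  have hq1 : StrictMono fun i => (q i).1 := strictMono_nat_of_lt_succ fun i => by
    rw [hq]
    exact hN' _ _
  have hq2 : StrictMono fun i => (q i).2 := strictMono_nat_of_lt_succ fun i => by
    rw [hq]
    exact hn' _ _
  let d : ℕ → Set ℕ := fun i => S (q (i + 1)).1 \ S (q i).1
  have hd : ∀ i, ε < (vv (w (q (i + 1)).2)).real (cl (d i)) := by
    intro i
    simp only [d]
    rw [cl_diff, hq]
    exact hlt _ _
  choose t ht1 ht2 using fun i => exists_half (w (q (i + 1)).2) (d i) (hd i)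
  have hdisj : ∀ i j, i < j → Disjoint (d i) (d j) := by
    intro i j hij
    rw [Set.disjoint_left]
    rintro x ⟨hx1, -⟩ ⟨-, hx2⟩
    exact hx2 (hS (hq1.monotone (Nat.succ_le_of_lt hij)) hx1)
  have hdisj' : ∀ i j, i ≠ j → Disjoint (t i) (t j) := by
    intro i j hij
    rcases lt_or_gt_of_ne hij with h | h
    · exact (hdisj i j h).mono (ht1 i) (ht1 j)
    · exact ((hdisj j i h).mono (ht1 j) (ht1 i)).symm
  have hph := phillips_real (fun i A => ⟪w (q (i + 1)).2, T μ (ind (⋃ j ∈ A, t j))⟫) M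
    (by
      intro k A B hAB
      have h1 : Disjoint (⋃ j ∈ A, t j) (⋃ j ∈ B, t j) := by
        rw [Set.disjoint_iUnion₂_left]
        intro i hi
        rw [Set.disjoint_iUnion₂_right]
        intro j hj
        apply hdisj'
        rintro rfl
        exact Set.disjoint_left.1 hAB hi hj
      change ⟪_, T μ (ind (⋃ j ∈ A ∪ B, t j))⟫ = _
      rw [biUnion_union, ind_union h1, map_add, inner_add_right])
    (fun k A => hM _ _)
    (by
      intro A
      have h1 : Tendsto (fun i => (q (i + 1)).2) atTop atTop :=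
        hq2.tendsto_atTop.comp (tendsto_add_atTop_nat 1)
      exact (h0 _).comp h1)
  have h1 : ∀ᶠ i in atTop, |⟪w (q (i + 1)).2, T μ (ind (⋃ j ∈ ({i} : Set ℕ), t j))⟫| < ε / 2 := by
    have := hph.abs
    rw [abs_zero] at this
    exact this.eventually_lt_const (by linarith)
  obtain ⟨i, hi⟩ := h1.exists
  rw [biUnion_singleton] at hi
  exact absurd hi (not_lt.2 (ht2 i).le)

/-- uniform approximation of measurable sets by basic clopen sets -/
lemma uniform_approx (w : ℕ → Lp ℝ 2 μ) (M : ℝ) (hM : ∀ n S, |⟪w n, T μ (ind S)⟫| ≤ M)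
    (h0 : ∀ S, Tendsto (fun n => ⟪w n, T μ (ind S)⟫) atTop (𝓝 0)) (B : Set K)
    (hB : MeasurableSet B) : ∀ ε : ℝ, 0 < ε → ∃ S, ∀ n, (vv (w n)).real (B ∆ cl S) ≤ ε := by
  have hB' : MeasurableSet[MeasurableSpace.generateFrom (range cl)] B := by
    rw [← generate_cl]
    exact hB
  induction B, hB' using MeasurableSpace.generateFrom_induction with
  | hC t ht _ =>
    obtain ⟨S, rfl⟩ := ht
    intro ε hε
    exact ⟨S, fun n => by simp [hε.le]⟩
  | empty =>
    intro ε hε
    exact ⟨∅, fun n => by rw [cl_empty]; simp [hε.le]⟩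
  | compl t ht ih =>
    intro ε hε
    have ht' : MeasurableSet t := measurable_of_gen ht
    obtain ⟨S, hS⟩ := ih ht' ε hε
    refine ⟨Sᶜ, fun n => ?_⟩
    rw [cl_compl, compl_symmDiff_compl]
    exact hS n
  | iUnion B hBm ih =>
    intro ε hε
    have hBm' : ∀ i, MeasurableSet (B i) := fun i => measurable_of_gen (hBm i)
    have h1 : ∀ i : ℕ, ∃ S, ∀ n, (vv (w n)).real (B i ∆ cl S) ≤ ε / 2 * (1 / 2) ^ (i + 1) :=
      fun i => ih i (hBm' i) _ (by positivity)
    choose S hS using h1
    let R : ℕ → Set ℕ := fun N => ⋃ i ≤ N, S i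
    have hR : Monotone R := fun a b hab => biUnion_subset_biUnion_left fun i hi => le_trans hi hab
    obtain ⟨N, hN⟩ := uniform_regular w M hM h0 R hR (half_pos hε)
    refine ⟨R N, fun n => ?_⟩
    have hclR : ∀ N, cl (R N) = ⋃ i ≤ N, cl (S i) := by
      intro N
      induction N with
      | zero => simp [R]
      | succ N ih =>
        have e1 : R (N + 1) = R N ∪ S (N + 1) := by
          ext x
          simp only [R, mem_iUnion, mem_union, exists_prop]
          constructor
          · rintro ⟨i, hi, hx⟩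
            rcases Nat.lt_or_eq_of_le hi with h | h
            · exact Or.inl ⟨i, Nat.lt_succ_iff.1 h, hx⟩
            · rw [h] at hx
              exact Or.inr hx
          · rintro (⟨i, hi, hx⟩ | hx)
            · exact ⟨i, by omega, hx⟩
            · exact ⟨N + 1, le_rfl, hx⟩
        rw [e1, cl_union, ih]
        ext x
        simp only [mem_iUnion, mem_union, exists_prop]
        constructor
        · rintro (⟨i, hi, hx⟩ | hx)
          · exact ⟨i, by omega, hx⟩
          · exact ⟨N + 1, le_rfl, hx⟩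
        · rintro ⟨i, hi, hx⟩
          rcases Nat.lt_or_eq_of_le hi with h | h
          · exact Or.inl ⟨i, Nat.lt_succ_iff.1 h, hx⟩
          · rw [h] at hx
            exact Or.inr hx
    have hU : (⋃ i, cl (R i)) = ⋃ i, cl (S i) := by
      ext x
      simp only [hclR, mem_iUnion, exists_prop]
      constructor
      · rintro ⟨_, i, -, hx⟩
        exact ⟨i, hx⟩
      · rintro ⟨i, hx⟩
        exact ⟨i, i, le_rfl, hx⟩
    have hsub : (⋃ i, B i) ∆ cl (R N) ⊆
        (⋃ i, B i ∆ cl (S i)) ∪ ((⋃ i, cl (R i)) \ cl (R N)) := by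
      rw [hU]
      rintro x (⟨hx1, hx2⟩ | ⟨hx1, hx2⟩)
      · obtain ⟨i, hi⟩ := mem_iUnion.1 hx1
        by_cases hc : x ∈ cl (S i)
        · exact Or.inr ⟨mem_iUnion.2 ⟨i, hc⟩, hx2⟩
        · exact Or.inl (mem_iUnion.2 ⟨i, Or.inl ⟨hi, hc⟩⟩)
      · rw [hclR] at hx1
        simp only [mem_iUnion, exists_prop] at hx1
        obtain ⟨i, -, hi⟩ := hx1
        exact Or.inl (mem_iUnion.2 ⟨i, Or.inr ⟨hi, fun h => hx2 (mem_iUnion.2 ⟨i, h⟩)⟩⟩)
    have hsum : (vv (w n)).real (⋃ i, B i ∆ cl (S i)) ≤ ε / 2 := by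
      rw [measureReal_def]
      refine ENNReal.toReal_le_of_le_ofReal (half_pos hε).le ?_
      refine (measure_iUnion_le _).trans ?_
      have h2 : ∀ i, vv (w n) (B i ∆ cl (S i)) ≤ ENNReal.ofReal (ε / 2 * (1 / 2) ^ (i + 1)) := by
        intro i
        rw [← ENNReal.ofReal_toReal (measure_ne_top (vv (w n)) (B i ∆ cl (S i)))]
        exact ENNReal.ofReal_le_ofReal (hS i n)
      refine (ENNReal.tsum_le_tsum h2).trans ?_
      have hsm : HasSum (fun i : ℕ => ε / 2 * (1 / 2 : ℝ) ^ (i + 1)) (ε / 2) := by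
        have h3 := (hasSum_geometric_two).mul_left (ε / 2 * (1 / 2))
        have h4 : ε / 2 * (1 / 2) * 2 = ε / 2 := by ring
        rw [h4] at h3
        refine h3.congr_fun fun i => ?_
        rw [pow_succ]
        ring
      rw [← ENNReal.ofReal_tsum_of_nonneg (fun i => by positivity) hsm.summable, hsm.tsum_eq]
    calc (vv (w n)).real ((⋃ i, B i) ∆ cl (R N))
        ≤ (vv (w n)).real ((⋃ i, B i ∆ cl (S i)) ∪ ((⋃ i, cl (R i)) \ cl (R N))) :=
          measureReal_mono hsub
      _ ≤ (vv (w n)).real (⋃ i, B i ∆ cl (S i)) + (vv (w n)).real ((⋃ i, cl (R i)) \ cl (R N)) :=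
          measureReal_union_le _ _
      _ ≤ ε / 2 + ε / 2 := add_le_add hsum (hN n)
      _ = ε := by ring

lemma tendsto_set (w : ℕ → Lp ℝ 2 μ) (M : ℝ) (hM : ∀ n S, |⟪w n, T μ (ind S)⟫| ≤ M)
    (h0 : ∀ S, Tendsto (fun n => ⟪w n, T μ (ind S)⟫) atTop (𝓝 0)) (B : Set K)
    (hB : MeasurableSet B) : Tendsto (fun n => ∫ x in B, w n x ∂μ) atTop (𝓝 0) := by
  rw [Metric.tendsto_atTop]
  intro ε hε
  obtain ⟨S, hS⟩ := uniform_approx w M hM h0 B hB (ε / 2) (half_pos hε)
  obtain ⟨N, hN⟩ := Metric.tendsto_atTop.1 (h0 S) (ε / 2) (half_pos hε)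
  refine ⟨N, fun n hn => ?_⟩
  have h1 := hN n hn
  rw [Real.dist_eq, sub_zero] at h1 ⊢
  have h2 := (vv_diff_le (w n) hB (measurableSet_cl S)).trans (hS n)
  rw [inner_ind] at h1
  rw [abs_lt] at h1 ⊢
  rw [abs_le] at h2
  constructor <;> linarith [h1.1, h1.2, h2.1, h2.2]

/-- convergence against bounded functions -/
lemma tendsto_bounded (w : ℕ → Lp ℝ 2 μ) (M : ℝ) (hM : ∀ n S, |⟪w n, T μ (ind S)⟫| ≤ M)
    (h0 : ∀ S, Tendsto (fun n => ⟪w n, T μ (ind S)⟫) atTop (𝓝 0)) (φ : Lp ℝ 2 μ) (C : ℝ)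
    (hφ : ∀ᵐ x ∂μ, |φ x| ≤ C) : Tendsto (fun n => ⟪φ, w n⟫) atTop (𝓝 0) := by
  have hbd : ∀ n, (vv (w n)).real univ ≤ 2 * M := by
    intro n
    by_contra hcon
    rw [not_le, ← cl_univ] at hcon
    obtain ⟨S, -, hS⟩ := exists_half (w n) univ hcon
    have := hM n S
    linarith
  have hM0 : 0 ≤ M := (abs_nonneg _).trans (hM 0 ∅)
  have hφm : Measurable (φ : K → ℝ) := (Lp.stronglyMeasurable φ).measurable
  rw [Metric.tendsto_atTop]
  intro ε hε
  -- the step of the approximation
  obtain ⟨δ, hδ0, hδ⟩ : ∃ δ : ℝ, 0 < δ ∧ δ * (2 * M) ≤ ε / 2 :=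
    ⟨ε / 2 / (2 * M + 1), by positivity, by
      rw [div_mul_eq_mul_div, div_le_iff₀ (by positivity)]
      nlinarith⟩
  obtain ⟨m, hm⟩ := exists_nat_gt (C / δ)
  let B : ℤ → Set K := fun j => {x | ⌊φ x / δ⌋ = j}
  have hBm : ∀ j, MeasurableSet (B j) := fun j =>
    (hφm.div_const δ).floor (measurableSet_singleton j)
  let s : K → ℝ := fun x => δ * (⌊φ x / δ⌋ : ℝ)
  have hs : ∀ n, ∫ x, s x * w n x ∂μ =
      ∑ j ∈ Finset.Icc (-(m : ℤ) - 1) m, δ * j * ∫ x in B j, w n x ∂μ := by
    intro n
    have h1 : ∀ᵐ x ∂μ, s x * w n x =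
        ∑ j ∈ Finset.Icc (-(m : ℤ) - 1) m, δ * j * (B j).indicator (w n) x := by
      filter_upwards [hφ] with x hx
      rw [Finset.sum_eq_single ⌊φ x / δ⌋]
      · have : x ∈ B ⌊φ x / δ⌋ := rfl
        rw [indicator_of_mem this]
      · intro j _ hj
        have : x ∉ B j := fun h => hj (h.symm)
        rw [indicator_of_notMem this, mul_zero]
      · intro hnot
        exfalso
        apply hnot
        rw [Finset.mem_Icc]
        rw [abs_le] at hx
        rw [div_lt_iff₀ hδ0] at hm
        constructor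
        · rw [Int.le_floor, le_div_iff₀ hδ0]
          push_cast
          nlinarith
        · rw [← Int.lt_add_one_iff, Int.floor_lt, div_lt_iff₀ hδ0]
          push_cast
          nlinarith
    rw [integral_congr_ae h1, integral_finsetSum]
    · refine Finset.sum_congr rfl fun j _ => ?_
      rw [integral_const_mul, integral_indicator (hBm j)]
    · intro j _
      exact ((integrable_w (w n)).indicator (hBm j)).const_mul _
  have hlim : Tendsto (fun n => ∫ x, s x * w n x ∂μ) atTop (𝓝 0) := by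
    simp only [hs]
    have : (0 : ℝ) = ∑ j ∈ Finset.Icc (-(m : ℤ) - 1) m, δ * j * 0 := by simp
    rw [this]
    refine tendsto_finsetSum _ fun j _ => ?_
    exact (tendsto_set w M hM h0 (B j) (hBm j)).const_mul _
  obtain ⟨N, hN⟩ := Metric.tendsto_atTop.1 hlim (ε / 2) (half_pos hε)
  refine ⟨N, fun n hn => ?_⟩
  have h1 := hN n hn
  rw [Real.dist_eq, sub_zero] at h1 ⊢
  have hwi := integrable_w (w n)
  have hsm : Measurable s := (measurable_from_top.comp (hφm.div_const δ).floor).const_mul δ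
  have hdiff : ∀ x, |φ x - s x| ≤ δ := by
    intro x
    have h2 := Int.floor_le (φ x / δ)
    have h3 := Int.lt_floor_add_one (φ x / δ)
    rw [le_div_iff₀ hδ0] at h2
    rw [div_lt_iff₀ hδ0] at h3
    simp only [s]
    rw [abs_le]
    constructor <;> nlinarith
  have hint1 : Integrable (fun x => φ x * w n x) μ := by
    refine (hwi.bdd_mul hφm.aestronglyMeasurable (c := C) ?_)
    filter_upwards [hφ] with x hx using hx
  have hint2 : Integrable (fun x => s x * w n x) μ := by
    refine (hwi.bdd_mul hsm.aestronglyMeasurable (c := C + δ) ?_)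
    filter_upwards [hφ] with x hx
    rw [Real.norm_eq_abs]
    have h2 := hdiff x
    rw [abs_le] at hx h2 ⊢
    constructor <;> linarith [hx.1, hx.2, h2.1, h2.2]
  have h2 : ⟪φ, w n⟫ = ∫ x, s x * w n x ∂μ + ∫ x, (φ x - s x) * w n x ∂μ := by
    rw [L2.inner_def, ← integral_add hint2]
    · refine integral_congr_ae (Eventually.of_forall fun x => ?_)
      simp only [RCLike.inner_apply, conj_trivial]
      ring
    · refine (hint1.sub hint2).congr (Eventually.of_forall fun x => ?_)
      simp only [Pi.sub_apply]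
      ring
  have h3 : |∫ x, (φ x - s x) * w n x ∂μ| ≤ ε / 2 := by
    refine le_trans ?_ hδ
    calc |∫ x, (φ x - s x) * w n x ∂μ| ≤ ∫ x, |(φ x - s x) * w n x| ∂μ :=
          abs_integral_le_integral_abs
      _ ≤ ∫ x, δ * |w n x| ∂μ := by
          refine integral_mono_of_nonneg (Eventually.of_forall fun x => abs_nonneg _)
            (hwi.abs.const_mul _) (Eventually.of_forall fun x => ?_)
          simp only
          rw [abs_mul]
          exact mul_le_mul_of_nonneg_right (hdiff x) (abs_nonneg _)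
      _ = δ * (vv (w n)).real univ := by
          rw [integral_const_mul, vv_real _ MeasurableSet.univ, setIntegral_univ]
      _ ≤ δ * (2 * M) := by
          gcongr
          exact hbd n
  rw [h2]
  rw [abs_lt] at h1 ⊢
  rw [abs_le] at h3
  constructor <;> linarith [h1.1, h1.2, h3.1, h3.2]

end Var

/-- **Grothendieck's theorem.** -/
theorem grothendieck_nat : GrothendieckProperty (Set ℕ) := by
  intro f g hfg Φ
  have hF0 : ∀ x : C(K, ℝ), Tendsto (fun n => (f n - g) x) atTop (𝓝 0) := by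
    intro x
    have := (hfg x).sub_const (g x)
    rw [sub_self] at this
    exact this
  suffices h : Tendsto (fun n => Φ (f n - g)) atTop (𝓝 0) by
    have h1 := h.add_const (Φ g)
    rw [zero_add] at h1
    refine h1.congr fun n => ?_
    rw [map_sub]
    ring
  set F : ℕ → StrongDual ℝ C(K, ℝ) := fun n => f n - g with hF
  obtain ⟨M, hM⟩ : ∃ M, ∀ n, ‖F n‖ ≤ M := by
    refine banach_steinhaus fun x => ?_
    obtain ⟨C, hC⟩ := (hF0 x).norm.bddAbove_range
    exact ⟨C, fun n => hC (mem_range_self n)⟩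
  obtain ⟨μ, hμ, hdom⟩ := exists_common F
  choose C hC0 hC using hdom
  choose w hw using fun n => exists_density μ (F n) (C n) (hC0 n) (hC n)
  have hwM : ∀ n S, |⟪w n, T μ (ind S)⟫| ≤ M := by
    intro n S
    rw [← hw]
    refine ((F n).le_opNorm _).trans ?_
    calc ‖F n‖ * ‖ind S‖ ≤ ‖F n‖ * 1 := by
          gcongr
          exact norm_ind S
      _ ≤ M := by rw [mul_one]; exact hM n
  have hw0 : ∀ S, Tendsto (fun n => ⟪w n, T μ (ind S)⟫) atTop (𝓝 0) := by
    intro S
    refine (hF0 (ind S)).congr fun n => ?_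
    exact hw n (ind S)
  -- the functional on `L²`
  let J : Lp ℝ 2 μ →L[ℝ] StrongDual ℝ C(K, ℝ) :=
    LinearMap.mkContinuous
      { toFun := fun v => (innerSL ℝ v).comp (T μ)
        map_add' := fun u v => by
          ext h
          simp [inner_add_left]
        map_smul' := fun c v => by
          ext h
          simp [inner_smul_left] } ‖T μ‖ (by
      intro v
      refine (ContinuousLinearMap.opNorm_comp_le _ _).trans ?_
      rw [innerSL_apply_norm, mul_comm])
  have hJ : ∀ v h, J v h = ⟪v, T μ h⟫ := fun v h => rfl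
  have hFJ : ∀ n, F n = J (w n) := by
    intro n
    ext h
    rw [hJ]
    exact hw n h
  let φ : Lp ℝ 2 μ := (InnerProductSpace.toDual ℝ (Lp ℝ 2 μ)).symm (Φ.comp J)
  have hφ : ∀ v, Φ (J v) = ⟪φ, v⟫ := by
    intro v
    rw [InnerProductSpace.toDual_symm_apply]
    rfl
  -- the density is bounded
  have hset : ∀ B : Set K, MeasurableSet B → |∫ x in B, φ x ∂μ| ≤ ‖Φ‖ * μ.real B := by
    intro B hB
    have h1 : ∫ x in B, φ x ∂μ = Φ (J (indicatorConstLp 2 hB (measure_ne_top μ B) (1 : ℝ))) := by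
      rw [hφ, real_inner_comm, L2.inner_indicatorConstLp_one]
    rw [h1]
    refine (Φ.le_opNorm _).trans ?_
    refine mul_le_mul_of_nonneg_left ?_ (norm_nonneg _)
    refine ContinuousLinearMap.opNorm_le_bound _ measureReal_nonneg fun h => ?_
    rw [hJ, L2.inner_indicatorConstLp_one]
    have h2 : ∫ x in B, (T μ h : K → ℝ) x ∂μ = ∫ x in B, h x ∂μ := by
      refine setIntegral_congr_ae hB ?_
      filter_upwards [coeFn_T μ h] with x hx _ using hx
    rw [h2, mul_comm]
    exact norm_setIntegral_le_of_norm_le_const (measure_lt_top μ B) fun x _ => h.norm_coe_le_norm x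
  have hφi := integrable_w φ
  have hb1 : ∀ᵐ x ∂μ, φ x ≤ ‖Φ‖ := by
    refine ae_le_of_forall_setIntegral_le hφi (integrable_const _) fun B hB _ => ?_
    rw [setIntegral_const, smul_eq_mul, mul_comm]
    exact (le_abs_self _).trans (hset B hB)
  have hb2 : ∀ᵐ x ∂μ, -‖Φ‖ ≤ φ x := by
    refine ae_le_of_forall_setIntegral_le (integrable_const _) hφi fun B hB _ => ?_
    rw [setIntegral_const, smul_eq_mul]
    have := neg_le_of_abs_le (hset B hB)
    linarith
  have hb : ∀ᵐ x ∂μ, |φ x| ≤ ‖Φ‖ := by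
    filter_upwards [hb1, hb2] with x h1 h2
    rw [abs_le]
    exact ⟨h2, h1⟩
  have := tendsto_bounded w M hwM hw0 φ ‖Φ‖ hb
  refine this.congr fun n => ?_
  rw [← hφ, ← hFJ]

end Pool.Agent.R592.Gro
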