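import Mathlib

/-!
# Nonmeagre sets of reals and slaloms

The first part of this file is taken from the starting file
`Pool/Agent/Results/MP_3edc48_gt/MinSizeNonM.lean`.
-/

open Set Filter Topology

namespace Pool.Agent.R592

/-- The least cardinality of a nonmeagre set of reals. -/
noncomputable def nonM : Cardinal.{0} :=
  sInf {c | ∃ X : Set ℝ, Cardinal.mk X = c ∧ ¬ IsMeagre X}

lemma exists_cyl {U : Set (ℕ → Bool)} (hU : IsOpen U) {u : ℕ → Bool} (hu : u ∈ U) (m : ℕ) :
    ∃ n ≥ m, ∀ x : ℕ → Bool, (∀ j < n, x j = u j) → x ∈ U := by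
  obtain ⟨s, ⟨x, n, rfl⟩, hus, hsU⟩ :=
    (PiNat.isTopologicalBasis_cylinders (E := fun _ => Bool)).exists_subset_of_mem_open hu hU
  refine ⟨max n m, le_max_right _ _, fun y hy => hsU ?_⟩
  rw [PiNat.mem_cylinder_iff] at hus ⊢
  intro i hi
  rw [hy i (lt_of_lt_of_le hi (le_max_left _ _)), hus i hi]

lemma step_aux {U : Set (ℕ → Bool)} (hU : IsOpen U) (hd : Dense U) (m : ℕ)
    (T : Finset (Fin m → Bool)) :
    ∃ n ≥ m, ∃ w : ℕ → Bool, ∀ s ∈ T, ∀ x : ℕ → Bool, (∀ j : Fin m, x j = s j) →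
      (∀ j, m ≤ j → j < n → x j = w j) → x ∈ U := by
  induction T using Finset.induction_on with
  | empty => exact ⟨m, le_rfl, fun _ => true, by simp⟩
  | insert s T hs ih =>
    obtain ⟨n, hn, w, hw⟩ := ih
    let y : ℕ → Bool := fun j => if h : j < m then s ⟨j, h⟩ else w j
    obtain ⟨u, hu1, hu2⟩ := hd.inter_open_nonempty (PiNat.cylinder y n)
      (PiNat.isOpen_cylinder _ y n) ⟨y, PiNat.self_mem_cylinder y n⟩
    obtain ⟨n', hn', hcyl⟩ := exists_cyl hU hu2 n
    rw [PiNat.mem_cylinder_iff] at hu1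
    refine ⟨n', hn.trans hn', u, fun t ht x hx1 hx2 => ?_⟩
    rcases Finset.mem_insert.1 ht with rfl | ht
    · apply hcyl
      intro j hj
      by_cases h : j < m
      · rw [hu1 j (lt_of_lt_of_le h hn)]
        simp only [y, h, dif_pos]
        exact hx1 ⟨j, h⟩
      · exact hx2 j (not_lt.1 h) hj
    · refine hw t ht x hx1 (fun j hj1 hj2 => ?_)
      rw [hx2 j hj1 (lt_of_lt_of_le hj2 hn'), hu1 j hj2]
      simp [y, not_lt.2 hj1]

lemma step {U : Set (ℕ → Bool)} (hU : IsOpen U) (hd : Dense U) (m : ℕ) :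
    ∃ n > m, ∃ w : ℕ → Bool, ∀ x : ℕ → Bool, (∀ j, m ≤ j → j < n → x j = w j) → x ∈ U := by
  obtain ⟨n, hn, w, hw⟩ := step_aux hU hd m Finset.univ
  exact ⟨n + 1, by omega, w, fun x hx => hw (fun j => x j) (Finset.mem_univ _) x
    (fun _ => rfl) (fun j h1 h2 => hx j h1 (by omega))⟩

lemma exists_block {i : ℕ → ℕ} (hi : StrictMono i) (h0 : i 0 = 0) (j : ℕ) :
    ∃ n, i n ≤ j ∧ j < i (n + 1) := by
  induction j with
  | zero => exact ⟨0, by omega, by have := hi (Nat.lt_add_one 0); omega⟩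
  | succ j ih =>
    obtain ⟨n, h1, h2⟩ := ih
    by_cases h : j + 1 < i (n + 1)
    · exact ⟨n, by omega, h⟩
    · refine ⟨n + 1, by omega, ?_⟩
      have := hi (Nat.lt_add_one (n + 1))
      omega

/-- A meagre subset of the Cantor space is captured by an interval partition and one point. -/
lemma meagre_capture {Z : Set (ℕ → Bool)} (hZ : IsMeagre Z) :
    ∃ i : ℕ → ℕ, StrictMono i ∧ ∃ z : ℕ → Bool, ∀ x ∈ Z,
      ∀ᶠ n in atTop, ∃ j, i n ≤ j ∧ j < i (n + 1) ∧ x j ≠ z j := by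
  classical
  rw [IsMeagre, mem_residual_iff] at hZ
  obtain ⟨S, hSo, hSd, hSc, hSZ⟩ := hZ
  obtain ⟨V, hV⟩ := (hSc.insert univ).exists_eq_range (insert_nonempty _ _)
  have hVmem : ∀ n, V n ∈ insert univ S := fun n => hV ▸ mem_range_self n
  have hVo : ∀ n, IsOpen (V n) := by
    intro n
    rcases hVmem n with h | h
    · rw [h]; exact isOpen_univ
    · exact hSo _ h
  have hVd : ∀ n, Dense (V n) := by
    intro n
    rcases hVmem n with h | h
    · rw [h]; exact dense_univ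
    · exact hSd _ h
  let U : ℕ → Set (ℕ → Bool) := fun n => Nat.rec (V 0) (fun k W => W ∩ V (k + 1)) n
  have hU0 : U 0 = V 0 := rfl
  have hUs : ∀ n, U (n + 1) = U n ∩ V (n + 1) := fun n => rfl
  have hUo : ∀ n, IsOpen (U n) := by
    intro n
    induction n with
    | zero => exact hVo 0
    | succ n ih => rw [hUs]; exact ih.inter (hVo _)
  have hUd : ∀ n, Dense (U n) := by
    intro n
    induction n with
    | zero => exact hVd 0
    | succ n ih => rw [hUs]; exact ih.inter_of_isOpen_right (hVd _) (hVo _)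
  have hUanti : Antitone U := antitone_nat_of_succ_le (fun n => by rw [hUs]; exact inter_subset_left)
  have hUV : ∀ n, U n ⊆ V n := by
    intro n
    cases n with
    | zero => exact subset_rfl
    | succ n => rw [hUs]; exact inter_subset_right
  choose nx hnx w hw using fun (n m : ℕ) => step (hUo n) (hUd n) m
  let i : ℕ → ℕ := fun n => Nat.rec 0 (fun k a => nx k a) n
  have his : ∀ n, i (n + 1) = nx n (i n) := fun n => rfl
  have himono : StrictMono i := strictMono_nat_of_lt_succ (fun n => by rw [his]; exact hnx n (i n))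
  -- the point
  have hex : ∀ j, ∃ n, i n ≤ j ∧ j < i (n + 1) := by
    exact exists_block himono rfl
  choose N hN1 hN2 using hex
  have hNuniq : ∀ n j, i n ≤ j → j < i (n + 1) → N j = n := by
    intro n j h1 h2
    have a1 := hN1 j
    have a2 := hN2 j
    have b1 : N j < n + 1 := himono.lt_iff_lt.1 (lt_of_le_of_lt a1 h2)
    have b2 : n < N j + 1 := himono.lt_iff_lt.1 (lt_of_le_of_lt h1 a2)
    omega
  refine ⟨i, himono, fun j => w (N j) (i (N j)) j, fun x hx => ?_⟩
  have hx1 : x ∉ ⋂₀ S := fun h => hSZ h hx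
  rw [mem_sInter] at hx1
  push Not at hx1
  obtain ⟨t, htS, hxt⟩ := hx1
  have : t ∈ range V := by rw [← hV]; exact mem_insert_of_mem _ htS
  obtain ⟨n0, rfl⟩ := this
  filter_upwards [eventually_ge_atTop n0] with n hn
  by_contra! hcon
  have : x ∈ U n := by
    apply hw n (i n) x
    intro j h1 h2
    have := hcon j h1 (by rw [his]; exact h2)
    rw [this, hNuniq n j h1 (by rw [his]; exact h2)]
  exact hxt (hUV n0 (hUanti hn this))

lemma isMeagre_of_lt {X : Set ℝ} (h : Cardinal.mk X < nonM) : IsMeagre X := by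
  by_contra hX
  exact absurd (csInf_le' (s := {c | ∃ X : Set ℝ, Cardinal.mk X = c ∧ ¬ IsMeagre X}) ⟨X, rfl, hX⟩)
    (not_le.2 h)

/-- The binary expansion map. -/
noncomputable def bin (x : ℕ → Bool) : ℝ := Real.ofDigits (fun j => (if x j then 1 else 0 : Fin 2))

lemma continuous_bin : Continuous bin := by
  unfold bin
  refine Real.continuous_ofDigits.comp (continuous_pi fun j => ?_)
  exact (continuous_of_discreteTopology (f := fun b : Bool => (if b then 1 else 0 : Fin 2))).comp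
    (continuous_apply j)

lemma bin_cyl (y : ℕ → Bool) (n : ℕ) : ∃ a b : ℝ, a < b ∧ Icc a b ⊆ bin '' (PiNat.cylinder y n) := by
  set c : ℝ := ∑ i ∈ Finset.range n, Real.ofDigitsTerm (fun j => (if y j then 1 else 0 : Fin 2)) i with hc
  refine ⟨c, c + ((2 : ℝ) ^ n)⁻¹, by have : (0:ℝ) < ((2 : ℝ) ^ n)⁻¹ := by positivity
                                     linarith, ?_⟩
  intro t ht
  have h2 : (0 : ℝ) < 2 ^ n := by positivity
  have hs : (t - c) * 2 ^ n ∈ Icc (0:ℝ) 1 := by
    constructor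
    · have := ht.1
      have : 0 ≤ t - c := by linarith
      positivity
    · have := ht.2
      have h3 : t - c ≤ ((2 : ℝ) ^ n)⁻¹ := by linarith
      calc (t - c) * 2 ^ n ≤ ((2 : ℝ) ^ n)⁻¹ * 2 ^ n := by gcongr
        _ = 1 := inv_mul_cancel₀ h2.ne'
  obtain ⟨d, -, hd⟩ := Real.ofDigits_SurjOn (b := 2) one_lt_two hs
  refine ⟨fun j => if j < n then y j else decide (d (j - n) = 1), ?_, ?_⟩
  · rw [PiNat.mem_cylinder_iff]
    intro i hi
    simp [hi]
  · unfold bin
    rw [Real.ofDigits_eq_sum_add_ofDigits _ n]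
    have e1 : (fun i => (if (if i + n < n then y (i + n) else decide (d (i + n - n) = 1)) = true
        then 1 else 0 : Fin 2)) = d := by
      funext i
      have : ¬ (i + n < n) := by omega
      simp only [this, if_false, Nat.add_sub_cancel, decide_eq_true_eq]
      have := (d i).isLt
      split_ifs with h
      · exact h.symm
      · omega
    rw [e1, hd]
    have e2 : ∑ i ∈ Finset.range n, Real.ofDigitsTerm (fun j => (if (if j < n then y j else
        decide (d (j - n) = 1)) = true then 1 else 0 : Fin 2)) i = c := by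
      rw [hc]
      refine Finset.sum_congr rfl (fun i hi => ?_)
      rw [Finset.mem_range] at hi
      simp [Real.ofDigitsTerm, hi]
    rw [e2]
    push_cast
    field_simp
    ring

lemma meagre_cantor {Z : Set (ℕ → Bool)} (h : Cardinal.mk Z < nonM) : IsMeagre Z := by
  have h1 : Cardinal.mk (bin '' Z) < nonM := lt_of_le_of_lt Cardinal.mk_image_le h
  have h2 := isMeagre_of_lt h1
  rw [IsMeagre, mem_residual_iff] at h2 ⊢
  obtain ⟨S, hSo, hSd, hSc, hSZ⟩ := h2
  refine ⟨(fun t => bin ⁻¹' t) '' S, ?_, ?_, hSc.image _, ?_⟩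
  · rintro _ ⟨t, ht, rfl⟩
    exact (hSo t ht).preimage continuous_bin
  · rintro _ ⟨t, ht, rfl⟩
    rw [dense_iff_inter_open]
    rintro U hU ⟨y, hy⟩
    obtain ⟨s, ⟨x, n, rfl⟩, hus, hsU⟩ :=
      (PiNat.isTopologicalBasis_cylinders (E := fun _ => Bool)).exists_subset_of_mem_open hy hU
    obtain ⟨a, b, hab, hsub⟩ := bin_cyl x n
    obtain ⟨r, hr1, hr2⟩ := (hSd t ht).inter_open_nonempty (Ioo a b) isOpen_Ioo (nonempty_Ioo.2 hab)
    obtain ⟨u, hu, rfl⟩ := hsub (Ioo_subset_Icc_self hr1)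
    exact ⟨u, hsU hu, hr2⟩
  · intro x hx hxZ
    refine hSZ (a := bin x) ?_ (mem_image_of_mem _ hxZ)
    intro t ht
    exact hx _ ⟨t, ht, rfl⟩

lemma nonM_mem : ∃ X : Set ℝ, Cardinal.mk X = nonM ∧ ¬ IsMeagre X := by
  have : (sInf {c : Cardinal.{0} | ∃ X : Set ℝ, Cardinal.mk X = c ∧ ¬ IsMeagre X}) ∈
      {c : Cardinal.{0} | ∃ X : Set ℝ, Cardinal.mk X = c ∧ ¬ IsMeagre X} := by
    apply csInf_mem
    exact ⟨_, univ, rfl, not_isMeagre_of_isOpen isOpen_univ ⟨0, trivial⟩⟩
  exact this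

lemma countable_meagre {X : Set ℝ} (hX : X.Countable) : IsMeagre X := by
  have h : X = ⋃ x ∈ X, {x} := by simp
  rw [h]
  refine isMeagre_biUnion hX (fun x hx => ?_)
  apply IsNowhereDense.isMeagre
  rw [IsNowhereDense, closure_singleton, interior_singleton]

lemma aleph0_le_nonM : Cardinal.aleph0 ≤ nonM := by
  obtain ⟨X, hX, hm⟩ := nonM_mem
  rw [← hX]
  by_contra hcon
  apply hm
  apply countable_meagre
  rw [← Cardinal.le_aleph0_iff_set_countable]
  exact (not_le.1 hcon).le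

lemma exists_bits (z : ℕ → Bool) (m : ℕ) :
    ∃ c, 2 ^ m ≤ c ∧ c < 2 ^ (m + 1) ∧ ∀ j < m, Nat.testBit c j = z j := by
  refine ⟨Nat.ofBits (fun j : Fin (m + 1) => if (j : ℕ) < m then z j else true), ?_,
    Nat.ofBits_lt_two_pow _, ?_⟩
  · apply Nat.ge_two_pow_of_testBit
    rw [Nat.testBit_ofBits_lt _ m (Nat.lt_succ_self m)]
    simp
  · intro j hj
    rw [Nat.testBit_ofBits_lt _ j (by omega)]
    simp [hj]

/-- an unbounded family of functions gives an unbounded family of interval partitions -/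
lemma exists_partition (g : ℕ → ℕ) : ∃ h : ℕ → ℕ, StrictMono h ∧ h 0 = 0 ∧
    ∀ k, ∀ j ≤ h k, g j < h (k + 1) := by
  let h : ℕ → ℕ := fun n => Nat.rec 0 (fun _ a => a + 1 + ∑ j ∈ Finset.range (a + 1), g j) n
  have hs : ∀ n, h (n + 1) = h n + 1 + ∑ j ∈ Finset.range (h n + 1), g j := fun n => rfl
  refine ⟨h, strictMono_nat_of_lt_succ (fun n => by rw [hs]; omega), rfl, fun k j hj => ?_⟩
  rw [hs]
  have := Finset.single_le_sum (f := g) (fun i _ => Nat.zero_le _)
    (Finset.mem_range.2 (Nat.lt_succ_of_le hj))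
  simp only [Nat.succ_eq_add_one] at this
  omega

lemma partition_unbounded {S : Type} (g h : S → ℕ → ℕ) (hm : ∀ x, StrictMono (h x))
    (h0 : ∀ x, h x 0 = 0) (hg : ∀ x k, ∀ j ≤ h x k, g x j < h x (k + 1))
    (hub : ¬ ∃ f : ℕ → ℕ, ∀ x, ∀ᶠ n in atTop, g x n ≤ f n) (i : ℕ → ℕ) (hi : StrictMono i) :
    ∃ x, ∃ᶠ k in atTop, ∃ n, h x k ≤ i n ∧ i (n + 1) ≤ h x (k + 1) := by
  by_contra hcon
  apply hub
  refine ⟨fun m => i (m + 2), fun x => ?_⟩
  have hx : ¬ ∃ᶠ k in atTop, ∃ n, h x k ≤ i n ∧ i (n + 1) ≤ h x (k + 1) :=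
    fun h' => hcon ⟨x, h'⟩
  rw [not_frequently, eventually_atTop] at hx
  obtain ⟨k0, hk0⟩ := hx
  filter_upwards [eventually_ge_atTop (h x k0)] with m hm1
  by_contra! hlt
  obtain ⟨k, hk1, hk2⟩ := exists_block (hm x) (h0 x) m
  have hk : k0 ≤ k := by
    have : h x k0 < h x (k + 1) := lt_of_le_of_lt hm1 hk2
    have := (hm x).lt_iff_lt.1 this
    omega
  have h1 : g x m < h x (k + 2) := hg x (k + 1) m hk2.le
  have him : m ≤ i m := hi.id_le m
  rcases le_total (h x (k + 1)) (i (m + 1)) with h2 | h2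
  · exact hk0 (k + 1) (by omega) ⟨m + 1, h2, by
      have : i (m + 1 + 1) = i (m + 2) := rfl
      have : h x (k + 1 + 1) = h x (k + 2) := rfl
      omega⟩
  · exact hk0 k hk ⟨m, by omega, h2⟩


end Pool.Agent.R592
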