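import Pool.Agent.R592.NonM

/-!
# Slaloms and nonmeagre sets

Fewer than `nonM` slaloms of prescribed widths can be avoided, from some point on, by a single
function. The case of functions in place of slaloms is a theorem of Bartoszynski.
-/

open Set Filter Topology

namespace Pool.Agent.R592

/-- the numbers used up before stage `a` -/
noncomputable def usedSet (T : ℕ → Finset ℕ) : ℕ → Finset ℕ
  | 0 => ∅
  | a + 1 =>
    if h : (T a \ usedSet T a).Nonempty then insert ((T a \ usedSet T a).min' h) (usedSet T a)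
    else usedSet T a

lemma usedSet_succ (T : ℕ → Finset ℕ) (a : ℕ) : usedSet T (a + 1) =
    if h : (T a \ usedSet T a).Nonempty then insert ((T a \ usedSet T a).min' h) (usedSet T a)
    else usedSet T a := rfl

lemma usedSet_mono (T : ℕ → Finset ℕ) : Monotone (usedSet T) := by
  refine monotone_nat_of_le_succ (fun a => ?_)
  rw [usedSet_succ]
  split_ifs with h
  · exact Finset.subset_insert _ _
  · exact subset_rfl

lemma usedSet_card (T : ℕ → Finset ℕ) (a : ℕ) : (usedSet T a).card ≤ a := by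
  induction a with
  | zero => simp [usedSet]
  | succ a ih =>
    rw [usedSet_succ]
    split_ifs with h
    · exact (Finset.card_insert_le _ _).trans (by omega)
    · omega

lemma exists_pick (T : ℕ → Finset ℕ) : ∃ K : ℕ → Option ℕ,
    (∀ a k, K a = some k → k ∈ T a) ∧ (∀ a, a < (T a).card → ∃ k, K a = some k) ∧
    (∀ a b k, K a = some k → K b = some k → a = b) := by
  classical
  let K : ℕ → Option ℕ := fun a =>
    if h : (T a \ usedSet T a).Nonempty then some ((T a \ usedSet T a).min' h) else none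
  have hK : ∀ a k, K a = some k → k ∈ T a ∧ k ∉ usedSet T a ∧ k ∈ usedSet T (a + 1) := by
    intro a k hk
    simp only [K] at hk
    split_ifs at hk with h
    have hk' : (T a \ usedSet T a).min' h = k := by simpa using hk
    have h1 := Finset.min'_mem (T a \ usedSet T a) h
    rw [hk', Finset.mem_sdiff] at h1
    refine ⟨h1.1, h1.2, ?_⟩
    rw [usedSet_succ, dif_pos h, hk']
    exact Finset.mem_insert_self _ _
  refine ⟨K, fun a k hk => (hK a k hk).1, fun a ha => ?_, ?_⟩
  · have h : (T a \ usedSet T a).Nonempty := by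
      rw [← Finset.card_pos]
      have h1 := Finset.le_card_sdiff (usedSet T a) (T a)
      have h2 := usedSet_card T a
      omega
    exact ⟨_, dif_pos h⟩
  · have key : ∀ a b k, a < b → K a = some k → K b = some k → False := by
      intro a b k hab h1 h2
      exact (hK b k h2).2.1 (usedSet_mono T (Nat.succ_le_of_lt hab) (hK a k h1).2.2)
    intro a b k h1 h2
    rcases lt_trichotomy a b with h | h | h
    · exact (key a b k h h1 h2).elim
    · exact h
    · exact (key b a k h h2 h1).elim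

theorem slalom_nat {S : Type} (hS : Cardinal.mk S < nonM) (w : ℕ → ℕ) (φ : S → ℕ → Finset ℕ)
    (hφ : ∀ s m, (φ s m).card ≤ w m) : ∃ G : ℕ → ℕ, ∀ s, ∀ᶠ m in atTop, G m ∉ φ s m := by
  classical
  by_contra hcon
  have H : ∀ G : ℕ → ℕ, ∃ s, ∃ᶠ m in atTop, G m ∈ φ s m := by
    intro G
    by_contra hG
    apply hcon
    refine ⟨G, fun s => ?_⟩
    by_contra hs
    exact hG ⟨s, fun h => hs h⟩
  let e : ℕ ≃ Finset (ℕ × ℕ) := (Denumerable.eqv _).symm
  let g : S → ℕ → ℕ := fun s m => (φ s m).sup id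
  have hub : ¬ ∃ f : ℕ → ℕ, ∀ s, ∀ᶠ n in atTop, g s n ≤ f n := by
    rintro ⟨f, hf⟩
    obtain ⟨s, hs⟩ := H (fun m => f m + 1)
    obtain ⟨m, hm1, hm2⟩ := (hs.and_eventually (hf s)).exists
    have h1 : f m + 1 ≤ g s m := Finset.le_sup (f := id) hm1
    omega
  choose h hm h0 hh using fun s => exists_partition (g s)
  choose Kb hK1 hK2 using fun (s : S) (j : ℕ) => exists_block (hm s) (h0 s) j
  have hKu : ∀ s k j, h s k ≤ j → j < h s (k + 1) → Kb s j = k := by
    intro s k j h1 h2
    have b1 := (hm s).lt_iff_lt.1 (lt_of_le_of_lt (hK1 s j) h2)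
    have b2 := (hm s).lt_iff_lt.1 (lt_of_le_of_lt h1 (hK2 s j))
    omega
  -- the candidates
  let c : S → ℕ → Finset (ℕ × ℕ) := fun s a =>
    e (((φ s (Nat.unpair a).1).sort (· ≤ ·)).getD (Nat.unpair a).2 0)
  have hc : ∀ s m v, v ∈ φ s m → ∃ j < w m, c s (Nat.pair m j) = e v := by
    intro s m v hv
    rw [← Finset.mem_sort (· ≤ ·), List.mem_iff_getElem] at hv
    obtain ⟨j, hj, hjv⟩ := hv
    refine ⟨j, ?_, ?_⟩
    · have h1 := hφ s m
      rw [Finset.length_sort] at hj
      omega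
    · simp only [c, Nat.unpair_pair]
      rw [List.getD_eq_getElem _ _ hj, hjv]
  choose K hKT hKe hKi using fun s => exists_pick (fun a => (c s a).image Prod.fst)
  let val : S → ℕ → ℕ := fun s k =>
    if h : ∃ b, ∃ a, K s a = some k ∧ (k, b) ∈ c s a then h.choose else 0
  let φ2 : S × S → ℕ → Bool := fun p j => Nat.testBit (val p.2 (Kb p.1 j)) j
  have hZ : IsMeagre (range φ2) := by
    apply meagre_cantor
    refine lt_of_le_of_lt Cardinal.mk_range_le ?_
    rw [Cardinal.mk_prod, Cardinal.lift_id]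
    exact Cardinal.mul_lt_of_lt aleph0_le_nonM hS hS
  obtain ⟨i, hi, z, hz⟩ := meagre_capture hZ
  obtain ⟨s1, hs1⟩ := partition_unbounded g h hm h0 hh hub i hi
  obtain ⟨κ, hκ, hκ2⟩ := extraction_of_frequently_atTop hs1
  choose N hN1 hN2 using hκ2
  choose b hb1 hb2 hb3 using exists_bits z
  let Fm : ℕ → Finset (ℕ × ℕ) := fun m =>
    (Finset.range (Nat.pair m (w m) + 1)).image (fun l => (κ l, b (h s1 (κ l + 1))))
  have hFm : ∀ m, ((Fm m).image Prod.fst).card = Nat.pair m (w m) + 1 := by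
    intro m
    simp only [Fm]
    rw [Finset.image_image, Finset.card_image_of_injective, Finset.card_range]
    exact hκ.injective
  obtain ⟨s2, hs2⟩ := H (fun m => e.symm (Fm m))
  -- stages where the guess is right
  have key : ∀ m, e.symm (Fm m) ∈ φ s2 m → ∃ j l, K s2 (Nat.pair m j) = some (κ l) ∧
      val s2 (κ l) = b (h s1 (κ l + 1)) := by
    intro m hmm
    obtain ⟨j, hj, hcj⟩ := hc s2 m _ hmm
    rw [Equiv.apply_symm_apply] at hcj
    have h1 : Nat.pair m j < ((c s2 (Nat.pair m j)).image Prod.fst).card := by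
      rw [hcj, hFm]
      have := Nat.pair_lt_pair_right m hj
      omega
    obtain ⟨k, hk⟩ := hKe s2 _ h1
    have h2 := hKT s2 _ _ hk
    simp only [hcj, Fm, Finset.mem_image, Finset.mem_range] at h2
    obtain ⟨_, ⟨l, hl, rfl⟩, rfl⟩ := h2
    refine ⟨j, l, hk, ?_⟩
    have hmem : (κ l, b (h s1 (κ l + 1))) ∈ c s2 (Nat.pair m j) := by
      rw [hcj]
      exact Finset.mem_image_of_mem _ (Finset.mem_range.2 hl)
    have hex : ∃ b, ∃ a, K s2 a = some (κ l) ∧ (κ l, b) ∈ c s2 a := ⟨_, _, hk, hmem⟩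
    simp only [val]
    rw [dif_pos hex]
    obtain ⟨a, ha1, ha2⟩ := hex.choose_spec
    have ha3 : a = Nat.pair m j := hKi s2 _ _ _ ha1 hk
    rw [ha3, hcj] at ha2
    simp only [Fm, Finset.mem_image, Prod.mk.injEq] at ha2
    obtain ⟨l', hl', h3, h4⟩ := ha2
    rw [← h4, hκ.injective h3]
  have h1 := hz (φ2 (s1, s2)) (mem_range_self _)
  rw [eventually_atTop] at h1
  obtain ⟨n0, hn0⟩ := h1
  have hinf : {m | e.symm (Fm m) ∈ φ s2 m}.Infinite := Nat.frequently_atTop_iff_infinite.1 hs2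
  choose! jj ll hjl1 hjl2 using key
  have hinj : InjOn (fun m => κ (ll m)) {m | e.symm (Fm m) ∈ φ s2 m} := by
    intro m hm' m' hm'' heq
    have a1 := hjl1 m hm'
    have a2 := hjl1 m' hm''
    have heq' : κ (ll m) = κ (ll m') := heq
    rw [heq'] at a1
    have a3 := hKi s2 _ _ _ a1 a2
    rw [Nat.pair_eq_pair] at a3
    exact a3.1
  obtain ⟨k, ⟨m, hmm, hkm⟩, hk⟩ := (hinf.image hinj).exists_gt (i n0)
  have hkm' : κ (ll m) = k := hkm
  set l := ll m with hl
  have h2 : i n0 ≤ i (N l) := by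
    calc i n0 ≤ κ l := by omega
      _ ≤ h s1 (κ l) := (hm s1).id_le _
      _ ≤ i (N l) := hN1 l
  have h3 : n0 ≤ N l := hi.le_iff_le.1 h2
  obtain ⟨j, hj1, hj2, hj3⟩ := hn0 (N l) h3
  apply hj3
  have hj4 : Kb s1 j = κ l := hKu s1 (κ l) j ((hN1 l).trans hj1) (lt_of_lt_of_le hj2 (hN2 l))
  simp only [φ2]
  rw [hj4, hjl2 m hmm]
  exact hb3 _ j (lt_of_lt_of_le hj2 (hN2 l))

/-- **Avoiding slaloms.** -/
theorem slalom {S : Type} (hS : Cardinal.mk S < nonM) {D : Type} [Denumerable D] (w : D → ℕ)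
    (φ : S → D → Finset ℕ) (hφ : ∀ s d, (φ s d).card ≤ w d) :
    ∃ G : D → ℕ, ∀ s, ∀ᶠ d in cofinite, G d ∉ φ s d := by
  let e : D ≃ ℕ := Denumerable.eqv D
  obtain ⟨G, hG⟩ := slalom_nat hS (fun m => w (e.symm m)) (fun s m => φ s (e.symm m))
    (fun s m => hφ s _)
  refine ⟨fun d => G (e d), fun s => ?_⟩
  have h1 := hG s
  rw [← Nat.cofinite_eq_atTop] at h1
  have h2 := e.injective.tendsto_cofinite.eventually h1
  filter_upwards [h2] with d hd
  simpa using hd

end Pool.Agent.R592
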